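import Pool.Agent.H44.DV.Targets

/-!
# All sides are connected by leaves
-/

set_option autoImplicit false

namespace Pool.Agent.H65.DV

open Pool.Agent.H44.DU Pool.Agent.H44.DU.Surf

section

variable {n : ℕ} (S : Surf n)

lemma dev_nil (c : Side n) : S.dev [] c = S.P c := by
  simp [dev, B, A]

lemma ne_of_gd {t : ℝ} (hg : S.Gd t) (s : Side n) : xi t (S.P s) ≠ xi t (S.Q s) := by
  intro h
  have h1 := hg [] [] s (nx s) (by rw [dev_nil, dev_nil, P_nx]; exact h)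
  rw [dev_nil, dev_nil, P_nx] at h1
  apply S.P_ne_Q s
  refine Complex.ext ?_ h1
  simp only [xi] at h
  rw [h1] at h
  linarith

lemma ne_O_of_gd {t : ℝ} (hg : S.Gd t) (s : Side n) :
    xi t (S.P s) ≠ xi t (S.O s) ∧ xi t (S.Q s) ≠ xi t (S.O s) := by
  have h1 := ne_of_gd S hg (nx s)
  have h2 := ne_of_gd S hg (nx (nx s))
  rw [P_nx, Q_nx] at h1
  rw [P_nx_nx, Q_nx_nx] at h2
  exact ⟨h2.symm, h1⟩

open Classical in
/-- The exit side of the crossing of the side `s`. -/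
noncomputable def ex (t : ℝ) (s : Side n) : Side n :=
  if xi t (S.Q s) < xi t (S.P s) then s else S.gl s

lemma ex_pos {t : ℝ} {s : Side n} (h : xi t (S.Q s) < xi t (S.P s)) : ex S t s = s := if_pos h

lemma ex_neg {t : ℝ} {s : Side n} (h : xi t (S.P s) < xi t (S.Q s)) : ex S t s = S.gl s :=
  if_neg (not_lt.2 h.le)

lemma ex_gl {t : ℝ} (hg : S.Gd t) (s : Side n) : ex S t (S.gl s) = ex S t s := by
  rcases lt_or_gt_of_ne (ne_of_gd S hg s) with h | h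
  · rw [ex_neg S h, ex_pos S]
    rw [xi_Q_gl, xi_P_gl, mv_lt_iff]; exact h
  · rw [ex_pos S h, ex_neg S, S.gl_gl]
    rw [xi_Q_gl, xi_P_gl, mv_lt_iff]; exact h

/-- Passing through a triangle. -/
lemma tr_of {t x : ℝ} {s r : Side n} (h1 : s.1 = r.1) (h2 : S.InI t s x) (h3 : S.InJ t r x) :
    S.Tr t (S.gl s, S.mv t s x) (r, x) := by
  refine ⟨(S.inJ_gl_iff t s x).2 h2, h3, ?_, (S.mv_gl t s x).symm⟩
  simp only [S.gl_gl]
  exact h1

lemma ex_entry {t : ℝ} {s r : Side n} {x : ℝ} (Φ : Side n → Prop)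
    (hΦ : ∀ p q : Side n × ℝ, S.Tr t p q → (Φ p.1 ↔ Φ q.1))
    (h1 : s.1 = r.1) (h2 : S.InI t s x) (h3 : S.InJ t r x) :
    Φ (ex S t s) ↔ Φ (ex S t r) := by
  rw [ex_neg S (h2.1.trans h2.2), ex_pos S (h3.1.trans h3.2)]
  exact hΦ _ _ (tr_of S h1 h2 h3)

/-- The three sides of a triangle, seen from a side which is alone. -/
lemma tri_entry {t : ℝ} (Φ : Side n → Prop)
    (hΦ : ∀ p q : Side n × ℝ, S.Tr t p q → (Φ p.1 ↔ Φ q.1)) {s : Side n}
    (h1 : xi t (S.P s) < xi t (S.O s)) (h2 : xi t (S.O s) < xi t (S.Q s)) :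
    (Φ (ex S t s) ↔ Φ (ex S t (nx s))) ∧ (Φ (ex S t s) ↔ Φ (ex S t (nx (nx s)))) := by
  constructor
  · have hI : S.InI t s ((xi t (S.O s) + xi t (S.Q s)) / 2) := ⟨by linarith, by linarith⟩
    exact ex_entry S Φ hΦ rfl hI (S.exit_right hI (by linarith))
  · have hI : S.InI t s ((xi t (S.P s) + xi t (S.O s)) / 2) := ⟨by linarith, by linarith⟩
    exact ex_entry S Φ hΦ rfl hI (S.exit_left hI (by linarith))

lemma tri_exit {t : ℝ} (Φ : Side n → Prop)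
    (hΦ : ∀ p q : Side n × ℝ, S.Tr t p q → (Φ p.1 ↔ Φ q.1)) {s : Side n}
    (h1 : xi t (S.Q s) < xi t (S.O s)) (h2 : xi t (S.O s) < xi t (S.P s)) :
    (Φ (ex S t s) ↔ Φ (ex S t (nx s))) ∧ (Φ (ex S t s) ↔ Φ (ex S t (nx (nx s)))) := by
  constructor
  · have hJ : S.InJ t s ((xi t (S.O s) + xi t (S.Q s)) / 2) := ⟨by linarith, by linarith⟩
    exact (ex_entry S (s := nx s) (r := s) Φ hΦ rfl (S.entry_left hJ (by linarith)) hJ).symm
  · have hJ : S.InJ t s ((xi t (S.P s) + xi t (S.O s)) / 2) := ⟨by linarith, by linarith⟩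
    exact (ex_entry S (s := nx (nx s)) (r := s) Φ hΦ rfl (S.entry_right hJ (by linarith)) hJ).symm

/-- All three sides of a triangle have the same value. -/
lemma tri {t : ℝ} (hg : S.Gd t) (Φ : Side n → Prop)
    (hΦ : ∀ p q : Side n × ℝ, S.Tr t p q → (Φ p.1 ↔ Φ q.1)) (s : Side n) :
    (Φ (ex S t s) ↔ Φ (ex S t (nx s))) ∧ (Φ (ex S t s) ↔ Φ (ex S t (nx (nx s)))) := by
  -- the middle one of the three values is opposite to the side which is alone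
  have key : ∃ r : Side n, r.1 = s.1 ∧
      ((xi t (S.P r) < xi t (S.O r) ∧ xi t (S.O r) < xi t (S.Q r)) ∨
      (xi t (S.Q r) < xi t (S.O r) ∧ xi t (S.O r) < xi t (S.P r))) := by
    have a1 := ne_of_gd S hg s
    obtain ⟨a2, a3⟩ := ne_O_of_gd S hg s
    rcases lt_or_gt_of_ne a1 with b1 | b1 <;> rcases lt_or_gt_of_ne a2 with b2 | b2 <;>
      rcases lt_or_gt_of_ne a3 with b3 | b3
    · -- P < Q < O : middle Q, opposite side nx nx s
      exact ⟨nx (nx s), rfl, by rw [P_nx_nx, Q_nx_nx, O_nx_nx]; exact Or.inr ⟨b1, b3⟩⟩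
    · -- P < O < Q
      exact ⟨s, rfl, Or.inl ⟨b2, b3⟩⟩
    · exfalso; linarith
    · -- O < P < Q : middle P, side nx s
      exact ⟨nx s, rfl, by rw [P_nx, Q_nx, O_nx]; exact Or.inr ⟨b2, b1⟩⟩
    · -- Q < P < O
      exact ⟨nx s, rfl, by rw [P_nx, Q_nx, O_nx]; exact Or.inl ⟨b1, b2⟩⟩
    · exfalso; linarith
    · -- Q < O < P
      exact ⟨s, rfl, Or.inr ⟨b3, b2⟩⟩
    · -- O < Q < P
      exact ⟨nx (nx s), rfl, by rw [P_nx_nx, Q_nx_nx, O_nx_nx]; exact Or.inl ⟨b3, b1⟩⟩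
  obtain ⟨r, hr, h⟩ := key
  have h2 : (Φ (ex S t r) ↔ Φ (ex S t (nx r))) ∧ (Φ (ex S t r) ↔ Φ (ex S t (nx (nx r)))) := by
    rcases h with ⟨h3, h4⟩ | ⟨h3, h4⟩
    · exact tri_entry S Φ hΦ h3 h4
    · exact tri_exit S Φ hΦ h3 h4
  rcases side_cases hr with h5 | h5 | h5
  · rw [h5] at h2; exact h2
  · rw [h5] at h2
    rw [nx_nx_nx] at h2
    exact ⟨h2.2.symm, h2.2.symm.trans h2.1⟩
  · rw [h5] at h2
    rw [nx_nx_nx] at h2
    exact ⟨h2.1.symm.trans h2.2, h2.1.symm⟩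

lemma tri' {t : ℝ} (hg : S.Gd t) (Φ : Side n → Prop)
    (hΦ : ∀ p q : Side n × ℝ, S.Tr t p q → (Φ p.1 ↔ Φ q.1)) {r s : Side n} (h : r.1 = s.1) :
    Φ (ex S t s) ↔ Φ (ex S t r) := by
  have h1 := tri S hg Φ hΦ s
  rcases side_cases h with h5 | h5 | h5
  · rw [h5]
  · rw [h5]; exact h1.1
  · rw [h5]; exact h1.2

end

theorem pf_CN2 : D_CN2 := by
  intro n S t hc hg Φ hΦ r r' x x' hr hr' hΦr
  have h1 : ∀ i j : Fin n, Relation.ReflTransGen (fun i j => ∃ k, (S.gl (i, k)).1 = j) i j →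
      (Φ (ex S t (i, 0)) → Φ (ex S t (j, 0))) := by
    intro i j hij
    induction hij with
    | refl => exact id
    | @tail b c _ hbc ih =>
      intro h
      have h2 := ih h
      obtain ⟨k, hk⟩ := hbc
      have h3 : Φ (ex S t (b, k)) := (tri' S hg Φ hΦ (r := (b, k)) (s := (b, 0)) rfl).1 h2
      rw [← ex_gl S hg] at h3
      exact (tri' S hg Φ hΦ (r := (c, 0)) (s := S.gl (b, k)) hk.symm).1 h3
  have h2 : Φ (ex S t r) := by rw [ex_pos S (hr.1.trans hr.2)]; exact hΦr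
  have h3 : Φ (ex S t (r.1, 0)) := (tri' S hg Φ hΦ (r := (r.1, 0)) (s := r) rfl).1 h2
  have h4 := h1 r.1 r'.1 (hc r.1 r'.1) h3
  have h5 : Φ (ex S t r') := (tri' S hg Φ hΦ (r := r') (s := (r'.1, 0)) rfl).1 h4
  rwa [ex_pos S (hr'.1.trans hr'.2)] at h5

end Pool.Agent.H65.DV
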