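import Pool.Agent.H44.DV.Targets

/-!
# The set of the accumulation states is invariant
-/

set_option autoImplicit false

namespace Pool.Agent.H65.DV

open Pool.Agent.H44.DU Pool.Agent.H44.DU.Surf

theorem pf_IV : D_IV := by
  intro n S t y hy p q hpq
  obtain ⟨hp1, hq1, hpq1, hpq2⟩ := hpq
  have ha : 0 < S.a p.1 := S.a_pos p.1
  constructor
  · intro hacc ε hε N
    -- the neighbourhood of `q.2`
    obtain ⟨hl, hr⟩ := hq1
    set η : ℝ := min (q.2 - xi t (S.Q q.1)) (xi t (S.P q.1) - q.2) with hη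
    have hη0 : 0 < η := lt_min (by linarith) (by linarith)
    obtain ⟨k, hk, hk1, hk2⟩ := hacc (min ε η / S.a p.1) (div_pos (lt_min hε hη0) ha) N
    have ht := hy k
    have h2 : (y (k + 1)).2 - q.2 = S.a p.1 * ((y k).2 - p.2) := by
      rw [ht.2.2.2, hpq2, hk1]; simp only [mv]; ring
    have h3 : |(y (k + 1)).2 - q.2| < min ε η := by
      rw [h2, abs_mul, abs_of_pos ha]
      rw [lt_div_iff₀ ha] at hk2
      linarith
    have h4 : S.InJ t q.1 (y (k + 1)).2 := by
      have h5 := (abs_lt.1 (lt_of_lt_of_le h3 (min_le_right _ _)))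
      have h6 : η ≤ q.2 - xi t (S.Q q.1) := min_le_left _ _
      have h7 : η ≤ xi t (S.P q.1) - q.2 := min_le_right _ _
      exact ⟨by linarith [h5.1], by linarith [h5.2]⟩
    have h8 : (y (k + 1)).1 = q.1 := by
      refine S.exit_unique ?_ ht.2.1 h4
      rw [← ht.2.2.1, hk1, hpq1]
    exact ⟨k + 1, by omega, h8, lt_of_lt_of_le h3 (min_le_left _ _)⟩
  · intro hacc ε hε N
    have hI : S.InI t (S.gl p.1) q.2 := by
      rw [hpq2]; exact (S.inI_gl_iff t p.1 p.2).2 hp1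
    obtain ⟨hl, hr⟩ := hI
    set η : ℝ := min (q.2 - xi t (S.P (S.gl p.1))) (xi t (S.Q (S.gl p.1)) - q.2) with hη
    have hη0 : 0 < η := lt_min (by linarith) (by linarith)
    obtain ⟨k, hk, hk1, hk2⟩ := hacc (min (S.a p.1 * ε) η)
      (lt_min (mul_pos ha hε) hη0) (N + 1)
    obtain ⟨k', rfl⟩ : ∃ k', k = k' + 1 := ⟨k - 1, by omega⟩
    have ht := hy k'
    have h5 := abs_lt.1 (lt_of_lt_of_le hk2 (min_le_right _ _))
    have h4 : S.InI t (S.gl p.1) (y (k' + 1)).2 := by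
      have h6 : η ≤ q.2 - xi t (S.P (S.gl p.1)) := min_le_left _ _
      have h7 : η ≤ xi t (S.Q (S.gl p.1)) - q.2 := min_le_right _ _
      exact ⟨by linarith [h5.1], by linarith [h5.2]⟩
    have h9 : S.InI t (S.gl (y k').1) (y (k' + 1)).2 := by
      rw [ht.2.2.2]; exact (S.inI_gl_iff t _ _).2 ht.1
    have h8 : S.gl (y k').1 = S.gl p.1 := by
      refine S.entry_unique ?_ h9 h4
      rw [ht.2.2.1, hk1, hpq1]
    have h10 : (y k').1 = p.1 := S.gl_inj h8
    have h2 : (y (k' + 1)).2 - q.2 = S.a p.1 * ((y k').2 - p.2) := by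
      rw [ht.2.2.2, hpq2, h10]; simp only [mv]; ring
    refine ⟨k', by omega, h10, ?_⟩
    have h3 : |(y (k' + 1)).2 - q.2| < S.a p.1 * ε := lt_of_lt_of_le hk2 (min_le_left _ _)
    rw [h2, abs_mul, abs_of_pos ha] at h3
    exact lt_of_mul_lt_mul_left h3 ha.le

end Pool.Agent.H65.DV
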