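import Pool.Agent.H44.DV.Targets

/-!
# Every leaf is infinite in one of the two time directions
-/

set_option autoImplicit false

namespace Pool.Agent.H65.DV

open Pool.Agent.H44.DU Pool.Agent.H44.DU.Surf

/-- Either there is an infinite chain or a state without successor is reachable. -/
lemma chain_or {α : Type*} (R : α → α → Prop) (a : α) :
    (∃ y : ℕ → α, (∀ k, R (y k) (y (k + 1))) ∧ y 0 = a) ∨
    ∃ b, Relation.ReflTransGen R a b ∧ ¬ ∃ c, R b c := by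
  by_cases h : ∃ b, Relation.ReflTransGen R a b ∧ ¬ ∃ c, R b c
  · exact Or.inr h
  · left
    push Not at h
    choose f hf using h
    let T := {b // Relation.ReflTransGen R a b}
    let F : T → T := fun b => ⟨f b.1 b.2, b.2.tail (hf b.1 b.2)⟩
    let y : ℕ → T := fun k => F^[k] ⟨a, Relation.ReflTransGen.refl⟩
    refine ⟨fun k => (y k).1, fun k => ?_, rfl⟩
    have h1 : y (k + 1) = F (y k) := Function.iterate_succ_apply' F k _
    change R (y k).1 (y (k + 1)).1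
    rw [h1]
    exact hf _ _

section

variable {n : ℕ} (S : Surf n)

lemma succ_ex {t : ℝ} {p : Side n × ℝ} (h : S.InJ t p.1 p.2)
    (hne : S.mv t p.1 p.2 ≠ xi t (S.O (S.gl p.1))) : ∃ q, S.Tr t p q := by
  have hI := (S.inI_gl_iff t p.1 p.2).2 h
  rcases lt_or_gt_of_ne hne with h1 | h1
  · exact ⟨(nx (nx (S.gl p.1)), S.mv t p.1 p.2), h, S.exit_left hI h1, rfl, rfl⟩
  · exact ⟨(nx (S.gl p.1), S.mv t p.1 p.2), h, S.exit_right hI h1, rfl, rfl⟩

lemma pred_of {t : ℝ} {p : Side n × ℝ} {s : Side n} (h : S.InJ t p.1 p.2) (hs : s.1 = p.1.1)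
    (hI : S.InI t s p.2) : S.Tr t (S.gl s, S.mv t s p.2) p := by
  refine ⟨(S.inJ_gl_iff t s p.2).2 hI, h, ?_, (S.mv_gl t s p.2).symm⟩
  simp only [S.gl_gl]
  exact hs

lemma pred_ex {t : ℝ} {p : Side n × ℝ} (h : S.InJ t p.1 p.2)
    (hne : p.2 ≠ xi t (S.O p.1)) : ∃ q, S.Tr t q p := by
  rcases lt_or_gt_of_ne hne with h1 | h1
  · exact ⟨_, pred_of S (s := nx p.1) h rfl (S.entry_left h h1)⟩
  · exact ⟨_, pred_of S (s := nx (nx p.1)) h rfl (S.entry_right h h1)⟩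

/-- The word of a chain; the developed heights increase. -/
lemma word_of (h3 : T_HT) {t : ℝ} {p q : Side n × ℝ} (hp : S.InJ t p.1 p.2)
    (h : Relation.ReflTransGen (S.Tr t) p q) :
    ∃ u : List (Side n), S.Run t (u ++ [q.1]) p.2 ∧ S.g t u p.2 = q.2 ∧
      (S.pt t p.1 p.2).im ≤ S.ht t u q.1 p.2 := by
  induction h with
  | refl =>
    refine ⟨[], ?_, S.g_nil t _, ?_⟩
    · rw [List.nil_append, run_single]; exact hp
    · simp [ht, g_nil, B, A]
  | @tail b c _ hbc ih =>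
    obtain ⟨u, hu1, hu2, hu3⟩ := ih
    obtain ⟨hb1, hb2, hb3, hb4⟩ := hbc
    have hg : S.g t (u ++ [b.1]) p.2 = c.2 := by
      rw [g_append, hu2, g_single, hb4]
    have hrun : S.Run t (u ++ [b.1] ++ [c.1]) p.2 := by
      rw [run_snoc, hg]
      exact ⟨hu1, hb3, hb2⟩
    refine ⟨u ++ [b.1], hrun, hg, ?_⟩
    obtain ⟨k1, k2, -⟩ := h3 n S t p.2 u b.1 c.1 hrun
    have k3 : 0 < S.sg t b.1 c.1 (S.g t (u ++ [b.1]) p.2) / S.A (u ++ [b.1]) :=
      div_pos k2 (S.A_pos _)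
    linarith

end

theorem pf_NS (h1 : T_PT) (h2 : T_CR) (h3 : T_HT) : D_NS := by
  intro n S t hgd r x hrx
  rcases chain_or (S.Tr t) (r, x) with hy | ⟨b, hb, hb'⟩
  · exact Or.inl hy
  rcases chain_or (fun p q => S.Tr t q p) (r, x) with hy | ⟨c, hc, hc'⟩
  · exact Or.inr hy
  exfalso
  -- the chain from `c` to `b`
  have hcr : Relation.ReflTransGen (S.Tr t) c (r, x) := by
    rw [← Relation.reflTransGen_swap]
    exact hc
  have hcb : Relation.ReflTransGen (S.Tr t) c b := hcr.trans hb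
  have hcJ : S.InJ t c.1 c.2 := by
    rcases Relation.ReflTransGen.cases_head hcr with h | ⟨d, h, -⟩
    · rw [h]; exact hrx
    · exact h.1
  have hbJ : S.InJ t b.1 b.2 := by
    rcases Relation.ReflTransGen.cases_tail hb with h | ⟨d, -, h⟩
    · rw [h]; exact hrx
    · exact h.2.1
  have hbO : S.mv t b.1 b.2 = xi t (S.O (S.gl b.1)) := by
    by_contra h
    exact hb' (succ_ex S hbJ h)
  have hcO : c.2 = xi t (S.O c.1) := by
    by_contra h
    exact hc' (pred_ex S hcJ h)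
  obtain ⟨u, hu1, hu2, hu3⟩ := word_of S h3 hcJ hcb
  have k1 := (h2 n S t c.2).2.1 c.1 hcJ hcO
  have hbI := (S.inI_gl_iff t b.1 b.2).2 hbJ
  have k2 := (h2 n S t (S.mv t b.1 b.2)).2.2 (S.gl b.1) (hbI.1.trans hbI.2) hbI.1.le hbI.2.le hbO
  have hne : xi t (S.P b.1) ≠ xi t (S.Q b.1) := (hbJ.1.trans hbJ.2).ne'
  have k3 := (h1 n S t b.1 hne).2.1 b.2
  have hA : 0 < S.A u := S.A_pos u
  have ha : 0 < S.a b.1 := S.a_pos b.1
  have hAU : S.A (u ++ [b.1]) = S.A u * S.a b.1 := by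
    rw [A_append]; simp [A]
  have hBU : S.B (u ++ [b.1]) = (S.a b.1 : ℂ) * S.B u + S.b b.1 := by
    rw [B_append]; simp [A, B]
  -- the developed corners
  have hd0 : S.dev [] (nx (nx c.1)) = S.O c.1 := by
    rw [dev, P_nx_nx]; simp [A, B]
  have hd1 : S.dev (u ++ [b.1]) (nx (nx (S.gl b.1))) =
      (S.O (S.gl b.1) - S.B (u ++ [b.1])) / ((S.A (u ++ [b.1]) : ℝ) : ℂ) := by
    rw [dev, P_nx_nx]
  have hg : S.g t (u ++ [b.1]) c.2 = xi t (S.O (S.gl b.1)) := by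
    rw [g_append, hu2, g_single, hbO]
  have hAU0 : 0 < S.A (u ++ [b.1]) := S.A_pos _
  have hxi : xi t (S.dev (u ++ [b.1]) (nx (nx (S.gl b.1)))) = c.2 := by
    rw [hd1, xi_div, xi_sub, ← hg, g, div_eq_iff hAU0.ne']
    ring
  have him := hgd [] (u ++ [b.1]) (nx (nx c.1)) (nx (nx (S.gl b.1)))
    (by rw [hd0, hxi, hcO])
  rw [hd0, hd1, Complex.div_ofReal_im, eq_div_iff hAU0.ne', Complex.sub_im, hBU,
    hAU] at him
  have e1 : (S.pt t (S.gl b.1) (S.mv t b.1 b.2)).im =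
      S.a b.1 * (S.pt t b.1 b.2).im + (S.b b.1).im := by
    rw [← k3]; simp
  have e2 : ((S.a b.1 : ℂ) * S.B u + S.b b.1).im = S.a b.1 * (S.B u).im + (S.b b.1).im := by
    simp
  rw [e2] at him
  rw [e1] at k2
  -- `(O c).im < ht u b`
  have k4 : (S.O c.1).im * S.A u < (S.pt t b.1 b.2).im - (S.B u).im := by
    have h5 : (S.O c.1).im < S.ht t u b.1 c.2 := lt_of_lt_of_le k1 hu3
    rw [ht, hu2, lt_div_iff₀ hA] at h5
    exact h5
  have k5 : (S.O c.1).im * S.A u * S.a b.1 <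
      ((S.pt t b.1 b.2).im - (S.B u).im) * S.a b.1 := mul_lt_mul_of_pos_right k4 ha
  nlinarith

end Pool.Agent.H65.DV
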